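import Pool.Agent.H13.TFQ.M16
import Pool.Agent.H13.TFQ.M18

/-!
# Naturality and values of `Lam`
-/

set_option autoImplicit false

open Matrix

universe u v

namespace Pool.Agent.H71.WH

namespace TwTr

variable {M : Type u} [Ring M] (t : TwTr M) {M' : Type v} [Ring M'] (t' : TwTr M')

/-- Naturality of `Lam` with respect to (possibly non-unital) morphisms. -/
theorem Lam_map (j : M →ₙ+* M') (hs : ∀ x, j (t.s x) = t'.s (j x)) (hκ : ∀ x, t'.κ (j x) = t.κ x)
    {g : Mˣ} {g' : M'ˣ} (hg : t.Adm g) (hg' : (g' : M') = j g + (1 - j 1)) :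
    t'.Lam g' = t.Lam g := by
  obtain ⟨z, hz⟩ := hg
  have hz' : (g' : M') = 1 + j z + t'.s (j z) := by
    rw [hg', hz, ← hs, map_add, map_add]
    abel
  have he : ∀ x : M, j x * (1 - j 1) = 0 := by
    intro x
    rw [mul_sub, mul_one, ← map_mul, mul_one, sub_self]
  have he' : ∀ x : M, (1 - j 1) * j x = 0 := by
    intro x
    rw [sub_mul, one_mul, ← map_mul, one_mul, sub_self]
  have hinv : ((g'⁻¹ : M'ˣ) : M') = j (g⁻¹ : Mˣ) + (1 - j 1) := by
    have h1 : (g' : M') * (j (g⁻¹ : Mˣ) + (1 - j 1)) = 1 := by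
      rw [hg', add_mul, mul_add, mul_add, ← map_mul, Units.mul_inv, he, he', mul_sub, mul_one,
        he' 1]
      abel
    calc ((g'⁻¹ : M'ˣ) : M') = (g'⁻¹ : M'ˣ) * ((g' : M') * (j (g⁻¹ : Mˣ) + (1 - j 1))) := by
          rw [h1, mul_one]
      _ = _ := by rw [← mul_assoc, Units.inv_mul, one_mul]
  rw [t'.Lam_eq hz', t.Lam_eq hz, lam, lam, inv_θ, inv_θ, L, L, add_sub_cancel_left,
    add_sub_cancel_left, hinv]
  congr 1
  have h1 : j z * (j ((g⁻¹ : Mˣ) : M) + (1 - j 1)) = j (z * (g⁻¹ : Mˣ)) := by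
    rw [mul_add, he, add_zero, map_mul]
  have h2 : (2 : t'.skew) * t'.el (j z * (j ((g⁻¹ : Mˣ) : M) + (1 - j 1)) * t'.s (j z))
      (-(j z * (j ((g⁻¹ : Mˣ) : M) + (1 - j 1)) * (1 + t'.s (j z)))) =
      t.skewMap t' j hs (2 * t.el (z * (g⁻¹ : Mˣ) * t.s z) (-(z * (g⁻¹ : Mˣ) * (1 + t.s z)))) := by
    rw [two_mul, two_mul, map_add, skewMap_el, h1, ← hs]
    have h3 : t'.el (j (z * (g⁻¹ : Mˣ)) * j (t.s z)) (-(j (z * (g⁻¹ : Mˣ)) * (1 + j (t.s z)))) =
      t'.el (j (z * (g⁻¹ : Mˣ) * t.s z)) (j (-(z * (g⁻¹ : Mˣ) * (1 + t.s z)))) := by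
      congr 1
      · rw [map_mul j (z * ((g⁻¹ : Mˣ) : M))]
      · rw [mul_add, mul_one, mul_add, mul_one, map_neg, map_add, map_mul j (z * ((g⁻¹ : Mˣ) : M))]
    rw [h3]
  rw [h2]
  apply tl_nonUnital
  intro V
  obtain ⟨a, b, rfl⟩ := t.exists_el V
  rw [skewMap_el, τ_el, τ_el, hκ]

/-- Vanishing of `Lam` for `z` in an off-diagonal corner. -/
theorem Lam_corner {p z : M} {g : Mˣ} (hp : p * t.s p = 0) (hp' : t.s p * p = 0)
    (h1 : p * z = z) (h2 : z * p = z) (h : (g : M) = 1 + z + t.s z) : t.Lam g = 0 := by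
  have s1 : t.s p * t.s z = t.s z := by rw [← map_mul, h1]
  have s2 : t.s z * t.s p = t.s z := by rw [← map_mul, h2]
  have c1 : p * t.s z = 0 := by rw [← s1, ← mul_assoc, hp, zero_mul]
  have c2 : t.s z * p = 0 := by rw [← s2, mul_assoc, hp', mul_zero]
  have hc : (g : M) * p = p * g := by
    rw [h]
    have e1 : (1 + z + t.s z) * p = p + z * p + t.s z * p := by noncomm_ring
    have e2 : p * (1 + z + t.s z) = p + p * z + p * t.s z := by noncomm_ring
    rw [e1, e2, h1, h2, c1, c2]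
  have hc' : ((g⁻¹ : Mˣ) : M) * p = p * (g⁻¹ : Mˣ) := by
    have : Commute (g : M) p := hc
    exact (this.units_inv_left).eq
  have e1 : z * ((g⁻¹ : Mˣ) : M) * t.s z = 0 := by
    calc z * ((g⁻¹ : Mˣ) : M) * t.s z = z * p * ((g⁻¹ : Mˣ) : M) * (t.s p * t.s z) := by
          rw [h2, s1]
      _ = z * (p * ((g⁻¹ : Mˣ) : M)) * (t.s p * t.s z) := by rw [mul_assoc z p]
      _ = z * ((g⁻¹ : Mˣ) : M) * (p * t.s p) * t.s z := by rw [← hc']; simp only [mul_assoc]
      _ = 0 := by rw [hp, mul_zero, zero_mul]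
  set b := -(z * ((g⁻¹ : Mˣ) : M) * (1 + t.s z)) with hb
  have e2 : b = -(z * ((g⁻¹ : Mˣ) : M)) := by
    rw [hb, mul_add, mul_one, e1, add_zero]
  have hb1 : p * b = b := by
    rw [e2, mul_neg, ← mul_assoc, h1]
  have hb2 : b * p = b := by
    rw [e2, neg_mul, mul_assoc, hc', ← mul_assoc, h2]
  have hb3 : b * t.s b = 0 := by
    have : t.s b = t.s p * t.s b := by rw [← map_mul, hb1]
    rw [this, ← mul_assoc, ← hb2, mul_assoc b p, hp, mul_zero, zero_mul]
  have hb4 : t.κ b = 0 := by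
    have h3 := t.tw p b
    rw [hb1] at h3
    rw [h3, ← hb2, mul_assoc, hp, mul_zero, map_zero]
  rw [t.Lam_eq h, lam, inv_θ, L, add_sub_cancel_left, e1, ← hb]
  have e3 : (2 : t.skew) * t.el 0 b = t.el 0 (b + b) := by
    rw [two_mul, el_add, add_zero]
  have e4 : t.el 0 (b + b) * t.el 0 (b + b) = 0 := by
    rw [el_mul, ← el_zero]
    congr 1
    · rw [map_add, mul_add, add_mul, hb3]
      simp
    · simp
  have e5 : tl t.τ (t.el 0 (b + b)) = tl t.τ 0 := by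
    apply tl_congr
    intro k
    rcases k with _ | k
    · rw [zero_add, pow_one, pow_one, τ_el, map_add, hb4, map_zero, add_zero]
    · rw [pow_succ, pow_succ, mul_assoc, e4, mul_zero, zero_pow (by omega)]
  rw [e3, e5, tl_zero, mul_zero]

end TwTr

end Pool.Agent.H71.WH
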